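import Pool.Agent.Lib.MP_8414c7_pr.Combine
import Pool.Agent.Lib.MP_8414c7_pr.Weight

set_option autoImplicit false

open MeasureTheory ProbabilityTheory Set
open scoped Real

namespace Pool.Agent.Results.MP_8414c7_pr.Full

/-- A weighting function: smooth, supported in `[0,1]`, nonnegative, of integral one. -/
def IsWeight (w : ℝ → ℝ) : Prop :=
  ContDiff ℝ (⊤ : ℕ∞) w ∧ tsupport w ⊆ Icc 0 1 ∧ (∀ x, 0 ≤ w x) ∧ ∫ x in (0 : ℝ)..1, w x = 1

/-- The normalising sum. -/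
noncomputable def A (w : ℝ → ℝ) (N : ℕ) : ℝ := ∑ n ∈ Finset.range N, w ((n : ℝ) / N)

/-- The corrected normal distribution function, `b` being the fourth absolute moment. -/
noncomputable def G (b : ℝ) (N : ℕ) (x : ℝ) : ℝ :=
  1 / √(2 * π) * (∫ t in Iic x, Real.exp (-t ^ 2 / 2)) -
    (b - 3) / (8 * √(2 * π) * N) * (x ^ 3 - 3 * x) * Real.exp (-x ^ 2 / 2)

/-- The weighted normalised sum. -/
noncomputable def S {Ω : Type*} (w : ℝ → ℝ) (X : ℕ → Ω → ℝ) (N : ℕ) (ω : Ω) : ℝ :=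
  1 / √(A w N) * ∑ n ∈ Finset.Ico 1 N, √(w ((n : ℝ) / N)) * X n ω

open Pool.Agent.Lib.MP_8414c7_pr in
theorem result : ∃ w : ℝ → ℝ, IsWeight w ∧ ∃ C : ℝ, 0 < C ∧
    ∀ (Ω : Type*) [MeasurableSpace Ω] (P : Measure Ω) [IsProbabilityMeasure P] (X : ℕ → Ω → ℝ),
      iIndepFun (fun n : ℕ => X (n + 1)) P →
      (∀ n, 1 ≤ n → IdentDistrib (X n) (X 1) P P) →
      Integrable (fun ω => |X 1 ω| ^ 5) P →
      ∫ ω, X 1 ω ∂P = 0 → ∫ ω, X 1 ω ^ 2 ∂P = 1 → ∫ ω, X 1 ω ^ 3 ∂P = 0 →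
      ∀ N : ℕ, 2 ≤ N → 0 < A w N → ∀ x : ℝ,
        |P.real {ω | S w X N ω ≤ x} - G (∫ ω, |X 1 ω| ^ 4 ∂P) N x| ≤
          C * (∫ ω, |X 1 ω| ^ 5 ∂P) / (N : ℝ) ^ (3 / 2 : ℝ) := by
  obtain ⟨w, hw, wz, w0, w1, M, L, c₀, c₁, δ₀, hM, hL, hc₀, hc₁, hδ₀, hδ₁, hW⟩ := exists_weight
  obtain ⟨C, hC, H⟩ := cdf_bound hM hL hc₀ hc₁ hδ₀ hδ₁
  refine ⟨w, ⟨hw, ?_, w0, w1⟩, C, hC, ?_⟩
  · refine closure_minimal (fun x hx => ?_) isClosed_Icc
    by_contra hc
    simp only [mem_Icc, not_and_or, not_le] at hc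
    exact hx (wz x (hc.imp le_of_lt le_of_lt))
  intro Ω _ P _ X hind hid h5 m1 m2 m3 N hN _ x
  have mX : ∀ n, 1 ≤ n → AEMeasurable (X n) P := fun n hn => (hid n hn).aemeasurable_fst
  have mX1 := mX 1 le_rfl
  have N0 : (0 : ℝ) < N := by positivity
  let μ : Measure ℝ := P.map (X 1)
  have : IsProbabilityMeasure μ := Measure.isProbabilityMeasure_map mX1
  have im : ∀ f : ℝ → ℝ, Continuous f → ∫ y, f y ∂μ = ∫ ω, f (X 1 ω) ∂P := fun f hf =>
    integral_map mX1 hf.aestronglyMeasurable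
  set β := ∫ ω, |X 1 ω| ^ 5 ∂P with hβ
  have β0 : 0 ≤ β := integral_nonneg fun ω => by positivity
  have hs : (β ^ ((3 : ℕ) : ℝ)⁻¹) ^ 3 = β := Real.rpow_inv_natCast_pow β0 (by norm_num)
  have mom : Mom μ (β ^ ((3 : ℕ) : ℝ)⁻¹) :=
    { int5 := (integrable_map_measure (Continuous.aestronglyMeasurable (by fun_prop)) mX1).2 h5
      m1 := (im (fun y => y) (by fun_prop)).trans m1
      m2 := (im (fun y => y ^ 2) (by fun_prop)).trans m2
      m3 := (im (fun y => y ^ 3) (by fun_prop)).trans m3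
      hs := by positivity
      m5 := (im (fun y => |y| ^ 5) (by fun_prop)).trans hs.symm }
  let θ : ℕ → ℝ := fun n => 1 / √(A w N) * √(w ((n : ℝ) / N))
  have eS : S w X N = fun ω => ∑ k ∈ Finset.range (N - 1), θ (k + 1) * X (k + 1) ω := by
    ext ω
    simp only [S, θ]
    rw [Finset.mul_sum, Finset.sum_Ico_eq_sum_range]
    refine Finset.sum_congr rfl fun k _ => ?_
    rw [add_comm 1 k]; ring
  have mT : ∀ k, AEMeasurable (fun ω => θ (k + 1) * X (k + 1) ω) P := fun k =>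
    (mX (k + 1) (by omega)).const_mul _
  have mS : AEMeasurable (S w X N) P := by
    rw [eS]; exact Finset.aemeasurable_fun_sum _ fun k _ => mT k
  let ν : Measure ℝ := P.map (S w X N)
  have : IsProbabilityMeasure ν := Measure.isProbabilityMeasure_map mS
  have hν : ∀ t, charFun ν t = ∏ i ∈ Finset.Ico 1 N, charFun μ (θ i * t) := by
    intro t
    have hi : iIndepFun (fun k : ℕ => fun ω => θ (k + 1) * X (k + 1) ω) P :=
      hind.comp (fun k y => θ (k + 1) * y) (fun k => by fun_prop)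
    simp only [ν]
    rw [eS, (hi.restrict _).charFun_map_fun_finsetSum_eq_prod (fun k _ => mT k),
      Finset.prod_apply, Finset.prod_Ico_eq_prod_range]
    refine Finset.prod_congr rfl fun k _ => ?_
    rw [charFun_map_mul_comp (mX (k + 1) (by omega)), (hid (k + 1) (by omega)).map_eq,
      add_comm 1 k]
  have main := H μ _ mom (Finset.Ico 1 N) θ (√N) (Real.sqrt_pos.2 N0)
    (hW N (A w N) θ rfl (fun _ => rfl)) ν hν x
  have e1 : ν.real (Iic x) = P.real {ω | S w X N ω ≤ x} := by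
    simp only [ν]
    rw [map_measureReal_apply_of_aemeasurable mS measurableSet_Iic]; rfl
  have e2 : ∫ y, y ^ 4 ∂μ = ∫ ω, |X 1 ω| ^ 4 ∂P := by
    rw [im (fun y => y ^ 4) (by fun_prop)]
    refine integral_congr_ae (Filter.Eventually.of_forall fun ω => ?_)
    simp only
    rw [show (4 : ℕ) = 2 * 2 by rfl, pow_mul, pow_mul, sq_abs]
  have e3 : √(N : ℝ) ^ 3 = (N : ℝ) ^ (3 / 2 : ℝ) := by
    rw [Real.sqrt_eq_rpow, ← Real.rpow_natCast, ← Real.rpow_mul N0.le]; norm_num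
  rw [e1, e2, integral_Iic_dens, div_pow, hs, e3, Real.sq_sqrt N0.le, ← mul_div_assoc] at main
  refine le_of_eq_of_le ?_ main
  congr 2
  unfold G
  congr 3
  field_simp

end Pool.Agent.Results.MP_8414c7_pr.Full
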